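import Pool.Agent.H271Z.Gap.Parts
import Pool.Agent.H222Z.ES.Stm

/-! The gap lemma `Pool.Agent.H222Z.ES.GapStm`. -/

namespace Pool.Agent.H271Z.Gap

open Finset Polynomial

lemma Z_bound (U q W Nn Err M0 Z : ℂ[X]) (k : ℕ) {x B ε M : ℝ} (hx : x = 2 ^ k)
    (hB : 1 ≤ B) (hM : 0 < M) (hε0 : 0 ≤ ε) (hε : ε * x ^ 50 * B ^ 3 ≤ 1)
    (hM0 : M0 = Nn * q + W * derivative q)
    (hZ : Z = q * q * Err - (W * q * derivative U - M0 * U))
    (nq : nrm 2 (k + 1) q ≤ x ^ 2 * M) (nW : nrm 2 (k + 1) W ≤ x ^ 2)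
    (nN : nrm 2 (k + 1) Nn ≤ B * x ^ 2) (nE : nrm 2 (k + 1) Err ≤ B * (ε * x ^ 2))
    (hU : ∀ j ≤ k, x ^ 50 * B ^ 2 * ‖U.coeff j‖ ≤ M) :
    x ^ 43 * B * nrm 2 k Z ≤ 4 * M ^ 2 := by
  have h2 : (0 : ℝ) ≤ 2 := by norm_num
  have hkx : (k : ℝ) + 1 ≤ x := by
    rw [hx]; exact_mod_cast Nat.lt_two_pow_self
  have hx1 : 1 ≤ x := by have : (0 : ℝ) ≤ k := Nat.cast_nonneg k; linarith
  have hx0 : 0 < x := by linarith
  set d := M / (x ^ 50 * B ^ 2) with hd
  have hd0 : 0 ≤ d := by positivity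
  have nU : nrm 2 (k + 1) U ≤ x ^ 2 * d := by
    calc nrm 2 (k + 1) U ≤ ∑ _i ∈ range (k + 1), d * x := by
          refine sum_le_sum fun j hj => ?_
          have hj' := Nat.lt_succ_iff.1 (mem_range.1 hj)
          refine mul_le_mul ?_ ?_ (by positivity) hd0
          · rw [hd, le_div_iff₀ (by positivity), mul_comm]; exact hU j hj'
          · rw [hx]; exact pow_le_pow_right₀ (by norm_num) hj'
      _ = ((k : ℝ) + 1) * (d * x) := by simp
      _ ≤ x * (d * x) := mul_le_mul_of_nonneg_right hkx (by positivity)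
      _ = _ := by ring
  have der : ∀ (P : ℂ[X]) (a : ℝ), nrm 2 (k + 1) P ≤ a → nrm 2 k (derivative P) ≤ x * a :=
    fun P a h => (nrm_derivative k P).trans
      (mul_le_mul (by linarith) h (nrm_nonneg h2 _ _) hx0.le)
  have dn : ∀ (P : ℂ[X]) (a : ℝ), nrm 2 (k + 1) P ≤ a → nrm 2 k P ≤ a :=
    fun P a h => (nrm_mono_k h2 (Nat.le_succ k) P).trans h
  have a1 := nrm_mul_le h2 (nrm_mul_le h2 (dn _ _ nq) (dn _ _ nq)) (dn _ _ nE)
  have a2 := nrm_mul_le h2 (nrm_mul_le h2 (dn _ _ nW) (dn _ _ nq)) (der _ _ nU)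
  have a3 : nrm 2 k M0 ≤ B * x ^ 2 * (x ^ 2 * M) + x ^ 2 * (x * (x ^ 2 * M)) := by
    rw [hM0]
    exact (nrm_add h2 _ _ _).trans (add_le_add (nrm_mul_le h2 (dn _ _ nN) (dn _ _ nq))
      (nrm_mul_le h2 (dn _ _ nW) (der _ _ nq)))
  have a4 := nrm_mul_le h2 a3 (dn _ _ nU)
  have a5 := nrm_sub h2 k (q * q * Err) (W * q * derivative U - M0 * U)
  have a6 := nrm_sub h2 k (W * q * derivative U) (M0 * U)
  rw [← hZ] at a5
  have b1 : x ^ 43 * B * (x ^ 2 * M * (x ^ 2 * M) * (B * (ε * x ^ 2))) ≤ M ^ 2 := by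
    have : ε * x ^ 49 * B ^ 2 ≤ 1 := by
      refine le_trans ?_ hε
      have : x ^ 49 ≤ x ^ 50 := pow_le_pow_right₀ hx1 (by norm_num)
      have : B ^ 2 ≤ B ^ 3 := pow_le_pow_right₀ hB (by norm_num)
      gcongr
    calc _ = (ε * x ^ 49 * B ^ 2) * M ^ 2 := by ring
      _ ≤ 1 * M ^ 2 := mul_le_mul_of_nonneg_right this (by positivity)
      _ = _ := one_mul _
  have hdM : x ^ 50 * B ^ 2 * d = M := by rw [hd]; field_simp
  have b2 : x ^ 43 * B * (x ^ 2 * (x ^ 2 * M) * (x * (x ^ 2 * d))) ≤ M ^ 2 := by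
    calc _ = x ^ 50 * B * d * M := by ring
      _ ≤ x ^ 50 * B ^ 2 * d * M := by
          have : B ≤ B ^ 2 := by nlinarith
          gcongr
      _ = _ := by rw [hdM]; ring
  have b3 : x ^ 43 * B * ((B * x ^ 2 * (x ^ 2 * M) + x ^ 2 * (x * (x ^ 2 * M))) * (x ^ 2 * d)) ≤
      2 * M ^ 2 := by
    calc _ = x ^ 49 * B ^ 2 * d * M + x ^ 50 * B * d * M := by ring
      _ ≤ x ^ 50 * B ^ 2 * d * M + x ^ 50 * B ^ 2 * d * M := by
          have : B ≤ B ^ 2 := by nlinarith
          have : x ^ 49 ≤ x ^ 50 := pow_le_pow_right₀ hx1 (by norm_num)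
          gcongr
      _ = _ := by rw [hdM]; ring
  have c : nrm 2 k Z ≤ x ^ 2 * M * (x ^ 2 * M) * (B * (ε * x ^ 2)) +
      (x ^ 2 * (x ^ 2 * M) * (x * (x ^ 2 * d)) +
        (B * x ^ 2 * (x ^ 2 * M) + x ^ 2 * (x * (x ^ 2 * M))) * (x ^ 2 * d)) := by linarith
  have c2 := mul_le_mul_of_nonneg_left c (show 0 ≤ x ^ 43 * B by positivity)
  rw [mul_add, mul_add] at c2
  linarith

lemma alg (T' T F' W q Q M0 E : ℂ) (hT : T ≠ 0) (hW : W ≠ 0) (hq : q ≠ 0) (hQ : Q ≠ 0)
    (e : W * q * F' - M0 * (Q * q) = q * q * E) :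
    T' / T - F' / (Q * q) = (W * q * T' - M0 * T) / (W * q * T) - E / (W * Q) := by
  have : E = (W * q * F' - M0 * (Q * q)) / (q * q) := by rw [e]; field_simp
  rw [this]; field_simp; ring

open Classical in
lemma core (Q q W Nn Err : ℂ[X]) (k lo j0 r D n : ℕ) (B ε : ℝ) (S : Multiset ℝ)
    (hS : S.card ≤ n) (hB : ((n : ℝ) + 1) * 2 ^ k ≤ B)
    (ode : W * derivative Q = Nn * Q + Err) (dW : W.natDegree ≤ r) (dN : Nn.natDegree ≤ r)
    (dq : q.natDegree < D) (hk : r + D + lo ≤ k)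
    (nW : nrm 2 (k + 1) W ≤ 3 ^ r) (nN : nrm 2 (k + 1) Nn ≤ n * 4 ^ r)
    (nE : nrm 2 (k + 1) Err ≤ B * (ε * 3 ^ r)) (mW : 1 ≤ W.mahlerMeasure)
    (hε0 : 0 ≤ ε) (hε : ε * 2 ^ (50 * k) * B ^ 3 ≤ 1) (hj0 : j0 < lo)
    (hM : q.mahlerMeasure ≤ B * ‖(Q * q).coeff j0‖)
    (small : ∀ j, lo ≤ j → j ≤ k → 2 ^ (50 * k) * B ^ 2 * ‖(Q * q).coeff j‖ < q.mahlerMeasure)
    (rad : ∀ (τ δ : ℝ) (t : ℂ), ‖t‖ = τ → 1 + δ ≤ τ → τ ≤ 2 → 0 < δ → (∀ s ∈ S, δ ≤ |τ - s|) →
      Q.eval t ≠ 0 ∧ δ / 4 * ‖Err.eval t‖ ≤ n * (ε * 3 ^ r) * ‖Q.eval t‖)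
    (count : ∀ τ : ℝ, 1 < τ → Q * q ≠ 0 → lo ≤ ((Q * q).roots.filter fun z => ‖z‖ < τ).card) :
    False := by
  have hk2 : 2 ≤ k := by omega
  set x : ℝ := 2 ^ k with hx
  set M := q.mahlerMeasure with hMdef
  set F := Q * q with hF
  have hx4 : 4 ≤ x := by
    rw [hx, show (4 : ℝ) = 2 ^ 2 by norm_num]; exact pow_le_pow_right₀ (by norm_num) hk2
  have hx0 : 0 < x := by linarith
  have hkx : (k : ℝ) + 1 ≤ x := by rw [hx]; exact_mod_cast Nat.lt_two_pow_self
  have hn0 : (0 : ℝ) ≤ n := Nat.cast_nonneg n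
  have hB1 : 1 ≤ B := by nlinarith
  have hnB : (n : ℝ) ≤ B := by nlinarith
  have e50 : (2 : ℝ) ^ (50 * k) = x ^ 50 := by rw [hx, ← pow_mul, mul_comm]
  rw [e50] at hε small
  have p4 : ∀ i ≤ k, (4 : ℝ) ^ i ≤ x ^ 2 := fun i hi => by
    rw [hx, ← pow_mul, mul_comm, pow_mul]; norm_num
    exact pow_le_pow_right₀ (by norm_num) hi
  have p3 : ∀ i ≤ k, (3 : ℝ) ^ i ≤ x ^ 2 := fun i hi =>
    (pow_le_pow_left₀ (by norm_num) (by norm_num) i).trans (p4 i hi)
  have hB0 : 0 < B := by linarith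
  have hM0 : 0 < M := lt_of_le_of_lt
    (mul_nonneg (mul_nonneg (pow_nonneg hx0.le _) (pow_nonneg hB0.le _)) (norm_nonneg _))
    (small lo le_rfl (by omega))
  have hFj : F.coeff j0 ≠ 0 := fun h => by rw [h, norm_zero, mul_zero] at hM; linarith
  have hF0 : F ≠ 0 := fun h => hFj (by rw [h, coeff_zero])
  set T : ℂ[X] := ∑ j ∈ range lo, monomial j (F.coeff j) with hT
  have cT : ∀ j, T.coeff j = if j < lo then F.coeff j else 0 := by
    intro j
    rw [hT, finsetSum_coeff]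
    simp only [coeff_monomial, sum_ite_eq', mem_range]
  have hTj : T.coeff j0 = F.coeff j0 := by rw [cT, if_pos hj0]
  have hT0 : T ≠ 0 := fun h => hFj (by rw [← hTj, h, coeff_zero])
  have dT : T.natDegree ≤ lo - 1 := by
    rw [natDegree_le_iff_coeff_eq_zero]
    intro N hN
    rw [cT, if_neg (by omega)]
  set M0 := Nn * q + W * derivative q with hM0def
  set Z := W * q * derivative T - M0 * T with hZdef
  have odeF : W * q * derivative F - M0 * F = q * q * Err := by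
    rw [hF, hM0def, derivative_mul]; linear_combination q * q * ode
  have hZ : Z = q * q * Err - (W * q * derivative (F - T) - M0 * (F - T)) := by
    rw [← odeF, hZdef, derivative_sub]; ring
  have nq : nrm 2 (k + 1) q ≤ x ^ 2 * M :=
    (nrm_le_mahler _ q).trans (mul_le_mul_of_nonneg_right (p3 _ (by omega)) hM0.le)
  have zb := Z_bound (F - T) q W Nn Err M0 Z k hx hB1 hM0 hε0 hε rfl hZ nq
    (nW.trans (p3 _ (by omega)))
    (nN.trans (mul_le_mul hnB (p4 _ (by omega)) (by positivity) (by linarith)))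
    (nE.trans (by have := p3 r (by omega); gcongr))
    (fun j hj => by
      rw [coeff_sub, cT]
      split_ifs with h
      · simpa using hM0.le
      · simpa using (small j (by omega) hj).le)
  have dZ : Z.natDegree < k := by
    have d1 : (derivative T).natDegree ≤ lo - 1 :=
      (natDegree_derivative_le T).trans (by omega)
    have d2 : (derivative q).natDegree ≤ q.natDegree :=
      (natDegree_derivative_le q).trans (by omega)
    have d3 : M0.natDegree ≤ r + q.natDegree :=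
      (natDegree_add_le _ _).trans (max_le (natDegree_mul_le.trans (by omega))
        (natDegree_mul_le.trans (by omega)))
    have d4 : (W * q).natDegree ≤ r + q.natDegree := natDegree_mul_le.trans (by omega)
    have d5 : (W * q * derivative T).natDegree ≤ r + q.natDegree + (lo - 1) :=
      natDegree_mul_le.trans (by omega)
    have d6 : (M0 * T).natDegree ≤ r + q.natDegree + (lo - 1) :=
      natDegree_mul_le.trans (by omega)
    exact ((natDegree_sub_le _ _).trans (max_le d5 d6)).trans_lt (by omega)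
  have mT : M ≤ B * (x ^ 2 * T.mahlerMeasure) := by
    refine hM.trans (mul_le_mul_of_nonneg_left ?_ (by linarith))
    rw [← hTj]
    exact (coeff_le_nrm (t := 2) (by norm_num) hj0 T).trans ((nrm_le_mahler _ T).trans
      (mul_le_mul_of_nonneg_right (p3 _ (by omega)) (mahlerMeasure_nonneg T)))
  have mT0 : 0 < T.mahlerMeasure := mahlerMeasure_pos_of_ne_zero hT0
  set P := W * q * T with hP
  have dqT : (q * T).natDegree ≤ q.natDegree + (lo - 1) := natDegree_mul_le.trans (by omega)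
  have dP : P.natDegree ≤ k := by
    rw [hP, mul_assoc]; exact natDegree_mul_le.trans (by omega)
  have mP : M * T.mahlerMeasure ≤ P.mahlerMeasure := by
    rw [hP, mahlerMeasure_mul, mahlerMeasure_mul, mul_assoc]
    exact le_mul_of_one_le_left (by positivity) mW
  obtain ⟨τ, hτ1, hτ2, hτS, hτP⟩ := good_radius (P.roots.map fun x => min ‖x‖ 4) S n hS
  have hm : (P.roots.map fun x => min ‖x‖ 4).card ≤ k := by
    rw [Multiset.card_map]; exact (card_roots' P).trans dP
  set m := (P.roots.map fun x => min ‖x‖ 4).card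
  have hm' : (m : ℝ) + 1 ≤ x := by
    have : (m : ℝ) ≤ k := by exact_mod_cast hm
    linarith
  have hm0 : (0 : ℝ) ≤ m := Nat.cast_nonneg m
  set δ : ℝ := 1 / (4 * (m + 1) * (n + 1)) with hδ
  have hδ0 : 0 < δ := by positivity
  have hδ1 : δ ≤ 1 / (2 * (m + 1)) :=
    one_div_le_one_div_of_le (by positivity) (by nlinarith)
  have hδB : 1 ≤ 4 * B * δ := by
    rw [hδ, mul_one_div, le_div_iff₀ (by positivity)]
    have : ((n : ℝ) + 1) * (m + 1) ≤ (n + 1) * x := by gcongr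
    nlinarith
  have hτ0 : 1 < τ := by linarith
  have low : ∀ t : ℂ, ‖t‖ = τ → M * T.mahlerMeasure ≤ x ^ 8 * ‖P.eval t‖ := by
    intro t ht
    have a := mahler_le_eval P hτ0.le hτ2 ht
    set π := ((P.roots.map fun x => min ‖x‖ 4).map fun x => |τ - x|).prod
    have hP0 := mahlerMeasure_nonneg P
    have b1 : P.mahlerMeasure ≤ 3 * 12 ^ m * (6 ^ P.natDegree * ‖P.eval t‖) := by
      calc P.mahlerMeasure ≤ P.mahlerMeasure * (3 * 12 ^ m * π) :=
            le_mul_of_one_le_right hP0 hτP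
        _ = 3 * 12 ^ m * (P.mahlerMeasure * π) := by ring
        _ ≤ _ := mul_le_mul_of_nonneg_left a (by positivity)
    have b2 : (12 : ℝ) ^ m ≤ x ^ 4 := by
      calc (12 : ℝ) ^ m ≤ 16 ^ m := pow_le_pow_left₀ (by norm_num) (by norm_num) _
        _ ≤ 16 ^ k := pow_le_pow_right₀ (by norm_num) hm
        _ = x ^ 4 := by rw [hx, ← pow_mul, mul_comm, pow_mul]; norm_num
    have b3 : (6 : ℝ) ^ P.natDegree ≤ x ^ 3 := by
      calc (6 : ℝ) ^ P.natDegree ≤ 8 ^ P.natDegree :=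
            pow_le_pow_left₀ (by norm_num) (by norm_num) _
        _ ≤ 8 ^ k := pow_le_pow_right₀ (by norm_num) dP
        _ = x ^ 3 := by rw [hx, ← pow_mul, mul_comm, pow_mul]; norm_num
    calc M * T.mahlerMeasure ≤ 3 * 12 ^ m * (6 ^ P.natDegree * ‖P.eval t‖) := mP.trans b1
      _ ≤ x * x ^ 4 * (x ^ 3 * ‖P.eval t‖) := by gcongr; linarith
      _ = _ := by ring
  have hPt : ∀ t : ℂ, ‖t‖ = τ → P.eval t ≠ 0 := fun t ht h => by
    have := low t ht
    rw [h, norm_zero, mul_zero] at this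
    have := mul_pos hM0 mT0
    linarith
  have parts : ∀ t : ℂ, ‖t‖ = τ → W.eval t ≠ 0 ∧ q.eval t ≠ 0 ∧ T.eval t ≠ 0 := fun t ht => by
    have := hPt t ht
    rw [hP, eval_mul, eval_mul] at this
    exact ⟨left_ne_zero_of_mul (left_ne_zero_of_mul this),
      right_ne_zero_of_mul (left_ne_zero_of_mul this), right_ne_zero_of_mul this⟩
  have radt := fun t (ht : ‖t‖ = τ) => rad τ δ t ht (by linarith) hτ2 hδ0 hτS
  have hr := rouche T F (by linarith) hτ2 (fun t ht => (parts t ht).2.2)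
    (fun t ht => by rw [hF, eval_mul]; exact mul_ne_zero (radt t ht).1 (parts t ht).2.1)
    hT0 hF0 (fun t ht => by
      obtain ⟨w0, q0, t0⟩ := parts t ht
      obtain ⟨Q0, hE⟩ := radt t ht
      have e1 := congrArg (eval t) odeF
      have e2 := congrArg (eval t) hZdef
      simp only [eval_sub, eval_mul] at e1 e2
      have eF : F.eval t = Q.eval t * q.eval t := by rw [hF, eval_mul]
      have eP : P.eval t = W.eval t * q.eval t * T.eval t := by rw [hP, eval_mul, eval_mul]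
      have id : (derivative T).eval t / T.eval t - (derivative F).eval t / F.eval t =
          Z.eval t / P.eval t - Err.eval t / (W.eval t * Q.eval t) := by
        rw [eP, e2, eF]
        rw [eF] at e1
        exact alg _ _ _ _ _ _ _ _ t0 w0 q0 Q0 e1
      rw [id]
      have ht2 : ‖t‖ ≤ 2 := ht ▸ hτ2
      have l := low t ht
      have nP : 0 < ‖P.eval t‖ := norm_pos_iff.2 (hPt t ht)
      have c1 : ‖Z.eval t / P.eval t‖ ≤ 1 / 8 := by
        rw [norm_div, div_le_iff₀ nP]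
        have z1 := eval_le_nrm dZ ht2
        have z2 : M ^ 2 ≤ B * x ^ 10 * ‖P.eval t‖ := by
          calc M ^ 2 = M * M := sq M
            _ ≤ M * (B * (x ^ 2 * T.mahlerMeasure)) := mul_le_mul_of_nonneg_left mT hM0.le
            _ = B * x ^ 2 * (M * T.mahlerMeasure) := by ring
            _ ≤ B * x ^ 2 * (x ^ 8 * ‖P.eval t‖) := by gcongr
            _ = _ := by ring
        have z3 : x ^ 43 * B * ‖Z.eval t‖ ≤ 4 * (B * x ^ 10 * ‖P.eval t‖) := by
          have := mul_le_mul_of_nonneg_left z1 (show 0 ≤ x ^ 43 * B by positivity)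
          linarith
        have z4 : x ^ 33 * ‖Z.eval t‖ ≤ 4 * ‖P.eval t‖ := by
          refine le_of_mul_le_mul_left ?_ (show 0 < x ^ 10 * B by positivity)
          calc _ = x ^ 43 * B * ‖Z.eval t‖ := by ring
            _ ≤ _ := z3
            _ = _ := by ring
        have z5 : (32 : ℝ) ≤ x ^ 33 :=
          le_trans (by norm_num) (pow_le_pow_left₀ (by norm_num) hx4 33)
        have := mul_le_mul_of_nonneg_right z5 (norm_nonneg (Z.eval t))
        linarith
      have c2 : ‖Err.eval t / (W.eval t * Q.eval t)‖ ≤ 1 / 8 := by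
        have nQ : 0 < ‖Q.eval t‖ := norm_pos_iff.2 Q0
        have nWt : 0 < ‖W.eval t‖ := norm_pos_iff.2 w0
        rw [norm_div, norm_mul, div_le_iff₀ (by positivity)]
        have w1 : ‖(q * T).eval t‖ ≤ x ^ 2 * (M * T.mahlerMeasure) := by
          refine (eval_le_nrm (k := k) (by omega) ht2).trans ((nrm_le_mahler _ _).trans ?_)
          rw [mahlerMeasure_mul]
          exact mul_le_mul_of_nonneg_right (p3 _ (by omega)) (by positivity)
        have w2 : 1 ≤ x ^ 10 * ‖W.eval t‖ := by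
          refine le_of_mul_le_mul_left ?_ (mul_pos hM0 mT0)
          rw [eP, mul_assoc (W.eval t), norm_mul, ← eval_mul] at l
          calc M * T.mahlerMeasure * 1 = M * T.mahlerMeasure := mul_one _
            _ ≤ x ^ 8 * (‖W.eval t‖ * ‖(q * T).eval t‖) := l
            _ ≤ x ^ 8 * (‖W.eval t‖ * (x ^ 2 * (M * T.mahlerMeasure))) := by gcongr
            _ = _ := by ring
        have w3 : δ / 4 * ‖Err.eval t‖ ≤ B * (ε * x ^ 2) * ‖Q.eval t‖ := by
          refine hE.trans ?_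
          have := p3 r (by omega)
          gcongr
        have w4 : ‖Err.eval t‖ ≤ 16 * B ^ 2 * (ε * x ^ 2) * ‖Q.eval t‖ := by
          calc ‖Err.eval t‖ ≤ (4 * B * δ) * ‖Err.eval t‖ :=
                le_mul_of_one_le_left (norm_nonneg _) hδB
            _ = 16 * B * (δ / 4 * ‖Err.eval t‖) := by ring
            _ ≤ 16 * B * (B * (ε * x ^ 2) * ‖Q.eval t‖) := by gcongr
            _ = _ := by ring
        have w5 : 128 * (B ^ 2 * ε * x ^ 12) ≤ 1 := by
          refine le_trans ?_ hε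
          have z5 : (128 : ℝ) ≤ x ^ 38 :=
            le_trans (by norm_num) (pow_le_pow_left₀ (by norm_num) hx4 38)
          have z6 : B ^ 2 ≤ B ^ 3 := pow_le_pow_right₀ hB1 (by norm_num)
          calc 128 * (B ^ 2 * ε * x ^ 12) ≤ x ^ 38 * (B ^ 3 * ε * x ^ 12) := by gcongr
            _ = _ := by ring
        calc ‖Err.eval t‖ ≤ 16 * B ^ 2 * (ε * x ^ 2) * ‖Q.eval t‖ * 1 := by rw [mul_one]; exact w4
          _ ≤ 16 * B ^ 2 * (ε * x ^ 2) * ‖Q.eval t‖ * (x ^ 10 * ‖W.eval t‖) := by gcongr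
          _ = (128 * (B ^ 2 * ε * x ^ 12)) * (1 / 8 * (‖W.eval t‖ * ‖Q.eval t‖)) := by ring
          _ ≤ 1 * (1 / 8 * (‖W.eval t‖ * ‖Q.eval t‖)) := by gcongr
          _ = _ := one_mul _
      exact (norm_sub_le _ _).trans (by linarith))
  have := count τ hτ0 hF0
  omega

theorem gap : Pool.Agent.H222Z.ES.GapStm := by
  classical
  intro In Out NI NO q n k lo D θ ε B hIn hOut hNI hNO hn h0 h1 hB dq hD hcase
  obtain ⟨j0, hj0, hM⟩ := partB In Out q n k hIn (by omega) h0 h1 (by omega)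
  rw [← hB] at hM
  have p1 : 0 < θ ^ k := by positivity
  have p2 : 0 < (1 - θ) ^ n := pow_pos (by linarith) n
  have hB0 : ((n : ℝ) + 1) * 2 ^ k ≤ B := by
    rw [hB, le_div_iff₀ (by positivity)]
    refine mul_le_of_le_one_right (by positivity) ?_
    exact mul_le_one₀ (pow_le_one₀ h0.le (by linarith)) p2.le
      (pow_le_one₀ (by linarith) (by linarith))
  have hB1 : 1 ≤ B := by
    have : (1 : ℝ) ≤ 2 ^ k := one_le_pow₀ (by norm_num)
    have : (0 : ℝ) ≤ n := Nat.cast_nonneg n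
    nlinarith
  by_cases hlo : lo ≤ j0
  · refine ⟨j0, hlo, hj0, hM.trans (mul_le_mul_of_nonneg_right ?_ (norm_nonneg _))⟩
    have : (1 : ℝ) ≤ 2 ^ (50 * k) := one_le_pow₀ (by norm_num)
    nlinarith
  push Not at hlo
  obtain ⟨hc, hk, hI, hO, hε⟩ := hcase.resolve_left (by omega)
  by_contra hcon
  push Not at hcon
  have hε0 : 0 ≤ ε := by
    by_cases h : Out = 0
    · have : 0 < (In.filter fun b => ‖b‖ = 1).card := by
        rw [h, Multiset.card_zero] at hc; omega
      obtain ⟨b, hb⟩ := Multiset.card_pos_iff_exists_mem.1 this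
      refine le_trans (Multiset.prod_nonneg fun y hy => ?_) (hI b (Multiset.mem_filter.1 hb).1)
      obtain ⟨w, -, rfl⟩ := Multiset.mem_map.1 hy
      exact norm_nonneg _
    · obtain ⟨a, ha⟩ := Multiset.exists_mem_of_ne_zero h
      refine le_trans (Multiset.prod_nonneg fun y hy => ?_) (hO a ha)
      obtain ⟨w, -, rfl⟩ := Multiset.mem_map.1 hy
      exact norm_nonneg _
  set W := (NI.map fun b => (1 + C b * X : ℂ[X])).prod * (NO.map fun a => C a + X).prod with hW
  set s : Multiset ℂ[X] := (In.map fun b => 1 + C b * X) + Out.map fun a => C a + X with hs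
  have hsp : s.prod = (In.map fun b => (1 + C b * X : ℂ[X])).prod *
      (Out.map fun a => C a + X).prod := by rw [hs, Multiset.prod_add]
  have hsc : s.card ≤ n := by rw [hs, Multiset.card_add, Multiset.card_map, Multiset.card_map]; exact hn
  have hsc' : (s.card : ℝ) ≤ n := by exact_mod_cast hsc
  obtain ⟨Nn, Err, ode, dN, nN, nE, -, ev⟩ := ode_lemma (k + 1) (NI.card + NO.card) W
    (θ := θ) (γ := 4 ^ (NI.card + NO.card)) (ρ := ε * 3 ^ (NI.card + NO.card)) h0.le
    (by linarith) (by positivity) s (fun f hf => by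
      rcases Multiset.mem_add.1 hf with h | h
      · obtain ⟨b, hb, rfl⟩ := Multiset.mem_map.1 h
        exact ⟨nrm_in h0.le _ (hIn b hb),
          factor_in _ NI NO hNI hNO (by omega) b (hIn b hb) (hI b hb)⟩
      · obtain ⟨a, ha, rfl⟩ := Multiset.mem_map.1 h
        exact ⟨(nrm_out h0.le _ a).trans (by linarith [hOut a ha]),
          factor_out _ NI NO hNI hNO (by omega) a (hOut a ha) (hO a ha)⟩)
  rw [← hsp] at hM hcon
  refine core s.prod q W Nn Err k lo j0 (NI.card + NO.card) D n B ε (In.map fun b => 1 / ‖b‖)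
    (by rw [Multiset.card_map]; omega) hB0 ode ?_ dN dq hk ?_ ?_ ?_ ?_ hε0 hε hlo hM hcon ?_ ?_
  · exact natDegree_mul_le.trans (add_le_add (natDegree_prod_le _ _ fun a _ => deg_in a)
      (natDegree_prod_le _ _ fun a _ => deg_out a))
  · rw [pow_add]; exact nrm_mul_le (by norm_num) (nrm_WI _ NI hNI) (nrm_WO _ NO hNO)
  · exact nN.trans (by gcongr)
  · refine (nrm_scale h0 (by linarith) k Err).trans ?_
    have a1 : (1 + θ) ^ s.card * (1 - θ) ^ n ≤ 1 := by
      calc (1 + θ) ^ s.card * (1 - θ) ^ n ≤ (1 + θ) ^ n * (1 - θ) ^ n :=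
            mul_le_mul_of_nonneg_right (pow_le_pow_right₀ (by linarith) hsc) p2.le
        _ = ((1 + θ) * (1 - θ)) ^ n := (mul_pow _ _ _).symm
        _ ≤ 1 := pow_le_one₀ (by nlinarith) (by nlinarith)
    have a2 : (1 + θ) ^ s.card ≤ 1 / (1 - θ) ^ n := by rw [le_div_iff₀ p2]; exact a1
    calc (2 / θ) ^ k * nrm θ (k + 1) Err
        ≤ (2 / θ) ^ k * ((n + 1) * (ε * 3 ^ (NI.card + NO.card)) * (1 / (1 - θ) ^ n)) := by
          refine mul_le_mul_of_nonneg_left (nE.trans ?_) (by positivity)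
          gcongr; linarith
      _ = _ := by rw [hB, div_pow]; field_simp
  · rw [hW, mahlerMeasure_mul]
    exact one_le_mul_of_one_le_of_one_le (one_le_mahler_in NI) (one_le_mahler_out NO)
  · intro τ δ t ht hτ1 hτ2 hδ hS
    have hf : ∀ f ∈ s, δ / 4 ≤ ‖f.eval t‖ := by
      intro f hf
      rcases Multiset.mem_add.1 hf with h | h
      · obtain ⟨b, hb, rfl⟩ := Multiset.mem_map.1 h
        exact eval_in_lower ht hτ2 (by linarith) (hS _ (Multiset.mem_map_of_mem _ hb))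
      · obtain ⟨a, ha, rfl⟩ := Multiset.mem_map.1 h
        have := eval_out_lower ht (hOut a ha)
        linarith
    refine ⟨?_, (ev t (δ / 4) (ht ▸ hτ2) (by positivity) hf).trans (by gcongr)⟩
    rw [eval_multiset_prod]
    refine Multiset.prod_ne_zero fun h => ?_
    obtain ⟨f, hf', h0⟩ := Multiset.mem_map.1 h
    have := hf f hf'
    rw [h0, norm_zero] at this
    linarith
  · intro τ hτ hF
    rw [hsp] at hF ⊢
    exact hc.trans (count_roots In Out q hOut hτ hF)

end Pool.Agent.H271Z.Gap
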