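import Mathlib

/-! Truncated weighted `ℓ¹` norms of complex polynomials. -/

namespace Pool.Agent.H271Z.Gap

open Finset Polynomial

/-- Truncated weighted coefficient norm. -/
noncomputable def nrm (t : ℝ) (k : ℕ) (P : ℂ[X]) : ℝ := ∑ j ∈ range k, ‖P.coeff j‖ * t ^ j

lemma nrm_nonneg {t : ℝ} (ht : 0 ≤ t) (k : ℕ) (P : ℂ[X]) : 0 ≤ nrm t k P :=
  sum_nonneg fun j _ => by positivity

lemma nrm_add {t : ℝ} (ht : 0 ≤ t) (k : ℕ) (P Q : ℂ[X]) :
    nrm t k (P + Q) ≤ nrm t k P + nrm t k Q := by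
  unfold nrm
  rw [← sum_add_distrib]
  refine sum_le_sum fun j _ => ?_
  rw [coeff_add, ← add_mul]
  exact mul_le_mul_of_nonneg_right (norm_add_le _ _) (by positivity)

lemma nrm_sub {t : ℝ} (ht : 0 ≤ t) (k : ℕ) (P Q : ℂ[X]) :
    nrm t k (P - Q) ≤ nrm t k P + nrm t k Q := by
  unfold nrm
  rw [← sum_add_distrib]
  refine sum_le_sum fun j _ => ?_
  rw [coeff_sub, ← add_mul]
  exact mul_le_mul_of_nonneg_right (norm_sub_le _ _) (by positivity)

lemma nrm_zero (t : ℝ) (k : ℕ) : nrm t k 0 = 0 := by simp [nrm]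

lemma nrm_mul {t : ℝ} (ht : 0 ≤ t) (k : ℕ) (P Q : ℂ[X]) :
    nrm t k (P * Q) ≤ nrm t k P * nrm t k Q := by
  unfold nrm
  calc ∑ j ∈ range k, ‖(P * Q).coeff j‖ * t ^ j
      ≤ ∑ j ∈ range k, ∑ x ∈ antidiagonal j,
          (‖P.coeff x.1‖ * t ^ x.1) * (‖Q.coeff x.2‖ * t ^ x.2) := by
        refine sum_le_sum fun j _ => ?_
        rw [coeff_mul]
        calc ‖∑ x ∈ antidiagonal j, P.coeff x.1 * Q.coeff x.2‖ * t ^ j
            ≤ (∑ x ∈ antidiagonal j, ‖P.coeff x.1‖ * ‖Q.coeff x.2‖) * t ^ j := by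
              refine mul_le_mul_of_nonneg_right ((norm_sum_le _ _).trans (le_of_eq ?_))
                (by positivity)
              exact sum_congr rfl fun x _ => norm_mul _ _
          _ = _ := by
              rw [sum_mul]
              refine sum_congr rfl fun x hx => ?_
              rw [← HasAntidiagonal.mem_antidiagonal.1 hx, pow_add]; ring
    _ ≤ ∑ x ∈ range k ×ˢ range k, (‖P.coeff x.1‖ * t ^ x.1) * (‖Q.coeff x.2‖ * t ^ x.2) := by
        rw [← sum_biUnion]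
        · refine sum_le_sum_of_subset_of_nonneg ?_ fun x _ _ => by positivity
          intro x hx
          simp only [mem_biUnion, mem_range, HasAntidiagonal.mem_antidiagonal, mem_product] at hx ⊢
          obtain ⟨a, ha, hxa⟩ := hx
          omega
        · intro a _ b _ hab
          simp only [Function.onFun]
          rw [disjoint_left]
          intro x hx hx'
          rw [HasAntidiagonal.mem_antidiagonal] at hx hx'
          exact hab (hx.symm.trans hx')
    _ = _ := by rw [sum_product, sum_mul_sum]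

lemma nrm_mul_le {t : ℝ} (ht : 0 ≤ t) {k : ℕ} {P Q : ℂ[X]} {a b : ℝ} (ha : nrm t k P ≤ a)
    (hb : nrm t k Q ≤ b) : nrm t k (P * Q) ≤ a * b :=
  (nrm_mul ht k P Q).trans
    (mul_le_mul ha hb (nrm_nonneg ht _ _) ((nrm_nonneg ht _ _).trans ha))

lemma nrm_mono_t {s t : ℝ} (hs : 0 ≤ s) (hst : s ≤ t) (k : ℕ) (P : ℂ[X]) :
    nrm s k P ≤ nrm t k P :=
  sum_le_sum fun j _ => mul_le_mul_of_nonneg_left (pow_le_pow_left₀ hs hst j) (norm_nonneg _)

lemma nrm_mono_k {t : ℝ} (ht : 0 ≤ t) {k l : ℕ} (h : k ≤ l) (P : ℂ[X]) :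
    nrm t k P ≤ nrm t l P :=
  sum_le_sum_of_subset_of_nonneg (range_subset_range.2 h) fun j _ _ => by positivity

lemma nrm_scale {s t : ℝ} (hs : 0 < s) (hst : s ≤ t) (k : ℕ) (P : ℂ[X]) :
    nrm t (k + 1) P ≤ (t / s) ^ k * nrm s (k + 1) P := by
  unfold nrm
  rw [mul_sum]
  refine sum_le_sum fun j hj => ?_
  have h1 : 1 ≤ t / s := by rw [le_div_iff₀ hs]; linarith
  have h2 : (t / s) ^ j ≤ (t / s) ^ k :=
    pow_le_pow_right₀ h1 (Nat.lt_succ_iff.1 (mem_range.1 hj))
  have h3 : t ^ j = (t / s) ^ j * s ^ j := by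
    rw [← mul_pow, div_mul_cancel₀ _ hs.ne']
  rw [h3]
  have : 0 ≤ ‖P.coeff j‖ * s ^ j := by positivity
  nlinarith

lemma coeff_le_nrm {t : ℝ} (ht : 1 ≤ t) {k j : ℕ} (hj : j < k) (P : ℂ[X]) :
    ‖P.coeff j‖ ≤ nrm t k P := by
  have h0 : 0 ≤ t := by linarith
  calc ‖P.coeff j‖ ≤ ‖P.coeff j‖ * t ^ j :=
        le_mul_of_one_le_right (norm_nonneg _) (one_le_pow₀ ht)
    _ ≤ nrm t k P :=
        single_le_sum (f := fun j => ‖P.coeff j‖ * t ^ j) (fun j _ => by positivity)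
          (mem_range.2 hj)

lemma eval_le_nrm {t : ℝ} {k : ℕ} {P : ℂ[X]} (hP : P.natDegree < k) {x : ℂ} (hx : ‖x‖ ≤ t) :
    ‖P.eval x‖ ≤ nrm t k P := by
  rw [eval_eq_sum_range' hP]
  refine (norm_sum_le _ _).trans (sum_le_sum fun j _ => ?_)
  rw [norm_mul, norm_pow]
  exact mul_le_mul_of_nonneg_left (pow_le_pow_left₀ (norm_nonneg _) hx j) (norm_nonneg _)

lemma nrm_monomial {t : ℝ} (ht : 0 ≤ t) (k i : ℕ) (c : ℂ) :
    nrm t k (monomial i c) ≤ ‖c‖ * t ^ i := by
  unfold nrm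
  by_cases hi : i ∈ range k
  · rw [sum_eq_single i]
    · simp
    · intro j _ hj; rw [coeff_monomial, if_neg (Ne.symm hj)]; simp
    · intro h; exact absurd hi h
  · rw [sum_eq_zero]
    · positivity
    · intro j hj
      have : i ≠ j := fun h => hi (h ▸ hj)
      rw [coeff_monomial, if_neg this]; simp

lemma nrm_C {t : ℝ} (ht : 0 ≤ t) (k : ℕ) (c : ℂ) : nrm t k (C c) ≤ ‖c‖ := by
  simpa using nrm_monomial ht k 0 c

lemma nrm_one {t : ℝ} (ht : 0 ≤ t) (k : ℕ) : nrm t k 1 ≤ 1 := by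
  simpa using nrm_C ht k 1

lemma nrm_X {t : ℝ} (ht : 0 ≤ t) (k : ℕ) : nrm t k X ≤ t := by
  simpa [monomial_one_one_eq_X] using nrm_monomial ht k 1 1

lemma nrm_pow {t : ℝ} (ht : 0 ≤ t) (k : ℕ) {P : ℂ[X]} {a : ℝ} (h : nrm t k P ≤ a) (r : ℕ) :
    nrm t k (P ^ r) ≤ a ^ r := by
  induction r with
  | zero => simpa using nrm_one ht k
  | succ r ih => rw [pow_succ, pow_succ]; exact nrm_mul_le ht ih h

lemma nrm_in {t : ℝ} (ht : 0 ≤ t) (k : ℕ) {b : ℂ} (hb : ‖b‖ ≤ 1) :
    nrm t k (1 + C b * X) ≤ 1 + t := by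
  have h1 := nrm_mul_le ht ((nrm_C ht k b).trans hb) (nrm_X ht k)
  have := nrm_add ht k 1 (C b * X)
  have := nrm_one ht k
  linarith

lemma nrm_out {t : ℝ} (ht : 0 ≤ t) (k : ℕ) (a : ℂ) :
    nrm t k (C a + X) ≤ ‖a‖ + t := by
  have := nrm_add ht k (C a) X
  have := nrm_C ht k a
  have := nrm_X ht k
  linarith

lemma nrm_prod {ι : Type*} {t : ℝ} (ht : 0 ≤ t) (k : ℕ) (s : Multiset ι) (f : ι → ℂ[X])
    (g : ι → ℝ) (h : ∀ i ∈ s, nrm t k (f i) ≤ g i) :
    nrm t k (s.map f).prod ≤ (s.map g).prod := by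
  induction s using Multiset.induction_on with
  | empty => simpa using nrm_one ht k
  | cons a s ih =>
    simp only [Multiset.map_cons, Multiset.prod_cons]
    exact nrm_mul_le ht (h a (Multiset.mem_cons_self _ _))
      (ih fun i hi => h i (Multiset.mem_cons_of_mem hi))

lemma nrm_prod_const {ι : Type*} {t : ℝ} (ht : 0 ≤ t) (k : ℕ) (s : Multiset ι) (f : ι → ℂ[X])
    (c : ℝ) (h : ∀ i ∈ s, nrm t k (f i) ≤ c) :
    nrm t k (s.map f).prod ≤ c ^ s.card := by
  simpa using nrm_prod ht k s f (fun _ => c) h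

lemma nrm_derivative (k : ℕ) (P : ℂ[X]) :
    nrm 2 k (derivative P) ≤ k * nrm 2 (k + 1) P := by
  unfold nrm
  rw [sum_range_succ', mul_add, mul_sum]
  have h0 : (0 : ℝ) ≤ k * (‖P.coeff 0‖ * 2 ^ 0) := by positivity
  refine le_trans (sum_le_sum fun j hj => ?_) (le_add_of_nonneg_right h0)
  rw [coeff_derivative, norm_mul]
  have h1 : ‖(j : ℂ) + 1‖ = (j : ℝ) + 1 := by
    rw [show ((j : ℂ) + 1) = ((j + 1 : ℕ) : ℂ) by push_cast; ring, Complex.norm_natCast]
    push_cast; ring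
  have h2 : (j : ℝ) + 1 ≤ k := by exact_mod_cast mem_range.1 hj
  rw [h1, pow_succ]
  have h3 : 0 ≤ ‖P.coeff (j + 1)‖ * 2 ^ j := by positivity
  have h4 : (0 : ℝ) ≤ k := Nat.cast_nonneg k
  nlinarith

lemma nrm_le_mahler (k : ℕ) (P : ℂ[X]) : nrm 2 k P ≤ 3 ^ P.natDegree * P.mahlerMeasure := by
  have hs := IsAlgClosed.splits P
  rw [mahlerMeasure_eq_leadingCoeff_mul_prod_roots, hs.natDegree_eq_card_roots]
  have h1 : nrm 2 k (P.roots.map fun a => X - C a).prod ≤
      (P.roots.map fun a => 3 * max 1 ‖a‖).prod := by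
    refine nrm_prod (by norm_num) k _ _ _ fun a _ => ?_
    have h := nrm_out (t := 2) (by norm_num) k (-a)
    rw [show (C (-a) + X : ℂ[X]) = X - C a by rw [map_neg]; ring, norm_neg] at h
    have := le_max_left 1 ‖a‖
    have := le_max_right 1 ‖a‖
    linarith
  rw [Multiset.prod_map_mul] at h1
  simp only [Multiset.map_const', Multiset.prod_replicate] at h1
  conv_lhs => rw [hs.eq_prod_roots]
  refine (nrm_mul_le (by norm_num) (nrm_C (by norm_num) k _) h1).trans (le_of_eq ?_)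
  ring

lemma mahler_le_nrm {k : ℕ} {P : ℂ[X]} (hP : P.natDegree < k) : P.mahlerMeasure ≤ nrm 1 k P := by
  refine (mahlerMeasure_le_sum_norm_coeff P).trans ?_
  unfold nrm
  simp only [one_pow, mul_one]
  rw [Polynomial.sum_def]
  refine sum_le_sum_of_subset_of_nonneg ?_ fun j _ _ => norm_nonneg _
  intro j hj
  exact mem_range.2 ((le_natDegree_of_mem_supp j hj).trans_lt hP)

/-- Removing inner factors. -/
lemma nrm_le_in {θ : ℝ} (h0 : 0 ≤ θ) (h1 : θ ≤ 1) (k : ℕ) (s : Multiset ℂ) (hs : ∀ b ∈ s, ‖b‖ ≤ 1)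
    (P : ℂ[X]) :
    (1 - θ) ^ s.card * nrm θ k P ≤ nrm θ k ((s.map fun b => 1 + C b * X).prod * P) := by
  induction s using Multiset.induction_on with
  | empty => simp
  | cons b s ih =>
    have ih' := ih fun i hi => hs i (Multiset.mem_cons_of_mem hi)
    simp only [Multiset.map_cons, Multiset.prod_cons, Multiset.card_cons]
    set R := (s.map fun b => 1 + C b * X).prod * P with hR
    have e : R = (1 + C b * X) * R - (C b * X) * R := by ring
    have h2 := nrm_sub h0 k ((1 + C b * X) * R) ((C b * X) * R)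
    rw [← e] at h2
    have h3 : nrm θ k ((C b * X) * R) ≤ (1 * θ) * nrm θ k R :=
      nrm_mul_le h0 (nrm_mul_le h0 ((nrm_C h0 k b).trans (hs b (Multiset.mem_cons_self _ _)))
        (nrm_X h0 k)) le_rfl
    rw [mul_assoc (1 + C b * X), ← hR, pow_succ]
    have h4 : 0 ≤ 1 - θ := by linarith
    nlinarith

/-- Division of a product of approximating linear factors by one linear factor. -/
lemma div_lemma (K : ℕ) (f e : ℂ[X]) (b : ℂ) (he : nrm 2 K e ≤ 2) (he' : e.natDegree ≤ 1)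
    (N : Multiset ℂ) (hN : ∀ w ∈ N, ‖w - b‖ ≤ 2 ∧ nrm 2 K (f + C (w - b) * e) ≤ 3 ∧
      (f + C (w - b) * e).natDegree ≤ 1) :
    ∃ G : ℂ[X], (N.map fun w => f + C (w - b) * e).prod =
      f * G + C (N.map fun w => w - b).prod * e ^ N.card ∧ G.natDegree ≤ N.card ∧
      nrm 2 K G ≤ 4 ^ N.card ∧ ‖(N.map fun w => w - b).prod‖ ≤ 2 ^ N.card := by
  induction N using Multiset.induction_on with
  | empty => exact ⟨0, by simp, by simp, by simp [nrm_zero], by simp⟩
  | cons w N ih =>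
    obtain ⟨G, hG, hd, hn, hc⟩ := ih fun i hi => hN i (Multiset.mem_cons_of_mem hi)
    obtain ⟨h1, h2, h3⟩ := hN w (Multiset.mem_cons_self _ _)
    refine ⟨(f + C (w - b) * e) * G + C (N.map fun w => w - b).prod * e ^ N.card, ?_, ?_, ?_, ?_⟩
    · simp only [Multiset.map_cons, Multiset.prod_cons, Multiset.card_cons]
      rw [hG, C_mul]; ring
    · rw [Multiset.card_cons]
      refine (natDegree_add_le _ _).trans (max_le ?_ ?_)
      · exact natDegree_mul_le.trans (by omega)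
      · refine (natDegree_C_mul_le _ _).trans (natDegree_pow_le.trans ?_)
        nlinarith
    · rw [Multiset.card_cons]
      have a1 := nrm_mul_le (by norm_num) h2 hn
      have a2 := nrm_mul_le (by norm_num) ((nrm_C (by norm_num) K _).trans hc)
        (nrm_pow (by norm_num) K he N.card)
      have a3 := nrm_add (t := 2) (by norm_num) K ((f + C (w - b) * e) * G)
        (C (N.map fun w => w - b).prod * e ^ N.card)
      rw [← mul_pow] at a2
      norm_num at a2
      rw [pow_succ]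
      simp only [map_multiset_prod, Multiset.map_map, Function.comp_def, map_sub] at a1 a2 a3 ⊢
      linarith
    · simp only [Multiset.map_cons, Multiset.prod_cons, Multiset.card_cons]
      rw [norm_mul, pow_succ, mul_comm]
      exact mul_le_mul hc h1 (norm_nonneg _) (by positivity)

/-- Approximate differential equation for a product of linear factors. -/
lemma ode_lemma (K r : ℕ) (W : ℂ[X]) {θ γ ρ : ℝ} (h0 : 0 ≤ θ) (h2 : θ ≤ 2) (hρ : 0 ≤ ρ)
    (s : Multiset ℂ[X])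
    (hs : ∀ f ∈ s, nrm θ K f ≤ 1 + θ ∧ ∃ G R : ℂ[X], W * derivative f = f * G + R ∧
      G.natDegree ≤ r ∧ nrm 2 K G ≤ γ ∧ R.natDegree < K ∧ nrm 2 K R ≤ ρ) :
    ∃ Nn Err : ℂ[X], W * derivative s.prod = Nn * s.prod + Err ∧ Nn.natDegree ≤ r ∧
      nrm 2 K Nn ≤ s.card * γ ∧ nrm θ K Err ≤ s.card * ρ * (1 + θ) ^ s.card ∧
      nrm θ K s.prod ≤ (1 + θ) ^ s.card ∧
      ∀ (t : ℂ) (m : ℝ), ‖t‖ ≤ 2 → 0 ≤ m → (∀ f ∈ s, m ≤ ‖f.eval t‖) →
        m * ‖Err.eval t‖ ≤ s.card * ρ * ‖s.prod.eval t‖ := by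
  induction s using Multiset.induction_on with
  | empty =>
    exact ⟨0, 0, by simp, by simp, by simp [nrm_zero], by simp [nrm_zero],
      by simpa using nrm_one h0 K, by simp⟩
  | cons f s ih =>
    obtain ⟨Nn, Err, e, hd, hn, hE, hP, hev⟩ := ih fun i hi => hs i (Multiset.mem_cons_of_mem hi)
    obtain ⟨hf, G, R, eG, hGd, hGn, hRd, hRn⟩ := hs f (Multiset.mem_cons_self _ _)
    refine ⟨G + Nn, R * s.prod + f * Err, ?_, ?_, ?_, ?_, ?_, ?_⟩
    · rw [Multiset.prod_cons, derivative_mul]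
      linear_combination s.prod * eG + f * e
    · exact (natDegree_add_le _ _).trans (max_le hGd hd)
    · have := nrm_add (t := 2) (by norm_num) K G Nn
      rw [Multiset.card_cons]; push_cast; linarith
    · have a1 := nrm_add h0 K (R * s.prod) (f * Err)
      have a2 := nrm_mul_le h0 ((nrm_mono_t h0 h2 K R).trans hRn) hP
      have a3 := nrm_mul_le h0 hf hE
      rw [Multiset.card_cons, pow_succ]; push_cast
      have a4 : 0 ≤ ρ * (1 + θ) ^ s.card * θ := by positivity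
      nlinarith
    · rw [Multiset.prod_cons, Multiset.card_cons, pow_succ']
      exact nrm_mul_le h0 hf hP
    · intro t m ht hm hfm
      have a1 := hev t m ht hm fun g hg => hfm g (Multiset.mem_cons_of_mem hg)
      have a2 := hfm f (Multiset.mem_cons_self _ _)
      have a3 := (eval_le_nrm hRd ht).trans hRn
      rw [Multiset.prod_cons, Multiset.card_cons, eval_add, eval_mul, eval_mul, eval_mul, norm_mul]
      push_cast
      have a4 := norm_add_le (R.eval t * s.prod.eval t) (f.eval t * Err.eval t)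
      rw [norm_mul, norm_mul] at a4
      have b1 := norm_nonneg (s.prod.eval t)
      have b2 := norm_nonneg (f.eval t)
      have b3 := norm_nonneg (R.eval t)
      have c1 : m * (‖R.eval t‖ * ‖s.prod.eval t‖) ≤ ‖f.eval t‖ * (ρ * ‖s.prod.eval t‖) :=
        mul_le_mul a2 (mul_le_mul_of_nonneg_right a3 b1) (by positivity) b2
      have c2 : ‖f.eval t‖ * (m * ‖Err.eval t‖) ≤ ‖f.eval t‖ * (s.card * ρ * ‖s.prod.eval t‖) :=
        mul_le_mul_of_nonneg_left a1 b2
      have c3 := mul_le_mul_of_nonneg_left a4 hm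
      nlinarith

end Pool.Agent.H271Z.Gap
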