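import Mathlib

/-! Choice of a good radius, and the argument principle for polynomials. -/

namespace Pool.Agent.H271Z.Gap

open Finset Polynomial Metric

lemma avoid (S : Multiset ℝ) (n : ℕ) (hS : S.card ≤ n) (a h : ℝ) (hh : 0 < h) :
    ∃ τ, a ≤ τ ∧ τ ≤ a + h ∧ ∀ s ∈ S, h / (2 * (n + 1)) ≤ |τ - s| := by
  classical
  by_contra hc
  push Not at hc
  have hn : (0 : ℝ) < n + 1 := by positivity
  have key : ∀ l : ℕ, ∃ s, l ∈ range (n + 1) → s ∈ S.toFinset ∧
      |a + l * (h / (n + 1)) - s| < h / (2 * (n + 1)) := by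
    intro l
    by_cases hl : l ∈ range (n + 1)
    · have hl' : (l : ℝ) ≤ n + 1 := by
        have : l ≤ n + 1 := (mem_range.1 hl).le
        exact_mod_cast this
      obtain ⟨s, hs, h1⟩ := hc (a + l * (h / (n + 1))) (by
        have : 0 ≤ (l : ℝ) * (h / (n + 1)) := by positivity
        linarith) (by
        have : (l : ℝ) * (h / (n + 1)) ≤ (n + 1) * (h / (n + 1)) :=
          mul_le_mul_of_nonneg_right hl' (by positivity)
        rw [mul_div_cancel₀ _ hn.ne'] at this
        linarith)
      exact ⟨s, fun _ => ⟨Multiset.mem_toFinset.2 hs, h1⟩⟩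
    · exact ⟨0, fun h => absurd h hl⟩
  choose f hf using key
  have hcard : S.toFinset.card < (range (n + 1)).card := by
    have := Multiset.toFinset_card_le S
    rw [card_range]; omega
  obtain ⟨x, hx, y, hy, hxy, he⟩ :=
    exists_ne_map_eq_of_card_lt_of_maps_to hcard (f := f) fun l hl => (hf l hl).1
  have h1 := (hf x hx).2
  have h2 := (hf y hy).2
  rw [he] at h1
  have e : h / (2 * (n + 1)) = h / (n + 1) / 2 := by field_simp
  rw [e] at h1 h2
  set η := h / (n + 1) with hη
  have hη0 : 0 < η := by positivity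
  rw [abs_lt] at h1 h2
  rcases lt_or_gt_of_ne hxy with h3 | h3
  · have : (x : ℝ) + 1 ≤ y := by exact_mod_cast h3
    nlinarith
  · have : (y : ℝ) + 1 ≤ x := by exact_mod_cast h3
    nlinarith

lemma prod_abs_erase (m i : ℕ) (hi : i ≤ m) :
    ∏ j ∈ (range (m + 1)).erase i, |(i : ℝ) - j| = (i.factorial : ℝ) * (m - i).factorial := by
  induction m, hi using Nat.le_induction with
  | base =>
    rw [range_add_one, erase_insert (by simp), Nat.sub_self, Nat.factorial_zero, Nat.cast_one,
      mul_one, ← prod_range_reflect, ← prod_range_add_one_eq_factorial]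
    push_cast
    refine prod_congr rfl fun j hj => ?_
    have hj' := mem_range.1 hj
    have : ((i - 1 - j : ℕ) : ℝ) = i - 1 - j := by
      rw [Nat.cast_sub (by omega), Nat.cast_sub (by omega)]; simp
    rw [this, abs_of_nonneg]
    · ring
    · have : (0 : ℝ) ≤ j := Nat.cast_nonneg j
      linarith
  | succ m hm ih =>
    rw [range_add_one (n := m + 1), erase_insert_of_ne (by omega), prod_insert (by simp), ih,
      show m + 1 - i = (m - i) + 1 by omega, Nat.factorial_succ]
    have hm' : (i : ℝ) ≤ m := by exact_mod_cast hm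
    rw [abs_of_nonpos (by push_cast; linarith)]
    push_cast [Nat.cast_sub hm]
    ring

lemma good_radius (R S : Multiset ℝ) (n : ℕ) (hS : S.card ≤ n) :
    ∃ τ : ℝ, 1 + 1 / (2 * (R.card + 1)) ≤ τ ∧ τ ≤ 2 ∧
      (∀ s ∈ S, 1 / (4 * (R.card + 1) * (n + 1)) ≤ |τ - s|) ∧
      1 ≤ 3 * 12 ^ R.card * (R.map fun x => |τ - x|).prod := by
  classical
  set m := R.card with hm
  set h : ℝ := 1 / (2 * (m + 1)) with hh
  have hh0 : 0 < h := by positivity
  choose v hv1 hv2 hv3 using fun i : ℕ => avoid S n hS (1 + (2 * i + 1) * h) h hh0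
  have gap : ∀ i j : ℕ, |(i : ℝ) - j| * h ≤ |v i - v j| := by
    have aux : ∀ i j : ℕ, i < j → ((j : ℝ) - i) * h ≤ v j - v i := by
      intro i j hij
      have : (i : ℝ) + 1 ≤ j := by exact_mod_cast hij
      have a1 := hv1 j
      have a2 := hv2 i
      nlinarith
    intro i j
    rcases lt_trichotomy i j with h1 | h1 | h1
    · have a := aux i j h1
      have : (i : ℝ) < j := by exact_mod_cast h1
      rw [abs_sub_comm, abs_of_pos (by linarith), abs_sub_comm]
      exact a.trans (le_abs_self _)
    · subst h1; simp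
    · have a := aux j i h1
      have : (j : ℝ) < i := by exact_mod_cast h1
      rw [abs_of_pos (by linarith)]
      exact a.trans (le_abs_self _)
  have inj : Set.InjOn v (range (m + 1) : Finset ℕ) := by
    intro i _ j _ hij
    have := gap i j
    rw [hij, sub_self, abs_zero] at this
    have h2 : |(i : ℝ) - j| ≤ 0 := by
      by_contra hc; push Not at hc
      have := mul_pos hc hh0
      linarith
    have h3 : (i : ℝ) - j = 0 := abs_nonpos_iff.1 h2
    exact_mod_cast sub_eq_zero.1 h3
  set p : ℝ[X] := (R.map fun x => X - C x).prod with hp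
  have hmon : p.Monic := monic_multiset_prod_of_monic _ _ fun x _ => monic_X_sub_C x
  have hdeg : p.natDegree = m := natDegree_multiset_prod_X_sub_C_eq_card R
  have hL := Lagrange.coeff_eq_sum (s := range (m + 1)) (v := v) inj (P := p) (by
    rw [card_range]
    exact degree_le_natDegree.trans_lt (by rw [hdeg]; exact_mod_cast Nat.lt_succ_self m))
  rw [card_range, Nat.add_sub_cancel, ← hdeg, ← leadingCoeff, hmon.leadingCoeff, hdeg] at hL
  have hev : ∀ τ : ℝ, |p.eval τ| = (R.map fun x => |τ - x|).prod := by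
    intro τ
    rw [hp, eval_multiset_prod, ← Real.norm_eq_abs, Multiset.map_map]
    have := map_multiset_prod (normHom (α := ℝ)) (R.map (eval τ ∘ fun x => X - C x))
    simp only [Multiset.map_map] at this
    exact this.trans (by simp)
  by_contra hc
  push Not at hc
  have hsmall : ∀ i ∈ range (m + 1), |p.eval (v i)| < 1 / (3 * 12 ^ m) := by
    intro i hi
    have hi' : (i : ℝ) ≤ m := by exact_mod_cast Nat.lt_succ_iff.1 (mem_range.1 hi)
    have hi0 : (0 : ℝ) ≤ i := Nat.cast_nonneg i
    have := hc (v i) (by have := hv1 i; nlinarith) (by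
      have a := hv2 i
      have : (2 * (m : ℝ) + 2) * h = 1 := by rw [hh]; field_simp
      nlinarith) (fun s hs => by
      have := hv3 i s hs
      refine le_trans (le_of_eq ?_) this
      rw [hh]; field_simp; ring)
    rw [hev, lt_div_iff₀ (by positivity)]
    linarith
  have hfac : (0 : ℝ) < m.factorial := by exact_mod_cast m.factorial_pos
  have hterm : ∀ i ∈ range (m + 1), p.eval (v i) / ∏ j ∈ (range (m + 1)).erase i, (v i - v j) <
      1 / (3 * 12 ^ m) * (m.choose i / (m.factorial * h ^ m)) := by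
    intro i hi
    have him : i ≤ m := Nat.lt_succ_iff.1 (mem_range.1 hi)
    have hlow : (i.factorial : ℝ) * (m - i).factorial * h ^ m ≤
        |∏ j ∈ (range (m + 1)).erase i, (v i - v j)| := by
      rw [abs_prod, ← prod_abs_erase m i him]
      have hc : ((range (m + 1)).erase i).card = m := by rw [card_erase_of_mem hi]; simp
      calc (∏ j ∈ (range (m + 1)).erase i, |(i : ℝ) - j|) * h ^ m
          = ∏ j ∈ (range (m + 1)).erase i, (|(i : ℝ) - j| * h) := by
            rw [prod_mul_distrib, prod_const, hc]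
        _ ≤ _ := prod_le_prod (fun j _ => by positivity) fun j _ => gap i j
    have hpos : (0 : ℝ) < (i.factorial : ℝ) * (m - i).factorial * h ^ m := by positivity
    have e : (m.choose i : ℝ) / (m.factorial * h ^ m) =
        1 / ((i.factorial : ℝ) * (m - i).factorial * h ^ m) := by
      rw [← Nat.choose_mul_factorial_mul_factorial him]
      have : (0 : ℝ) < m.choose i := by exact_mod_cast Nat.choose_pos him
      push_cast
      field_simp
    refine (le_abs_self _).trans_lt ?_
    rw [abs_div, e, mul_one_div]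
    calc |p.eval (v i)| / |∏ j ∈ (range (m + 1)).erase i, (v i - v j)|
        ≤ |p.eval (v i)| / ((i.factorial : ℝ) * (m - i).factorial * h ^ m) :=
          div_le_div_of_nonneg_left (abs_nonneg _) hpos hlow
      _ < _ := div_lt_div_of_pos_right (hsmall i hi) hpos
  have hsum := sum_lt_sum_of_nonempty (by simp) hterm
  rw [← hL, ← mul_sum, ← sum_div] at hsum
  have h2 : ∑ i ∈ range (m + 1), (m.choose i : ℝ) = 2 ^ m := by
    exact_mod_cast Nat.sum_range_choose m
  rw [h2] at hsum
  have h3 : ((m : ℝ) + 1) ^ m ≤ 3 ^ (m + 1) * m.factorial := by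
    have a := Real.pow_div_factorial_le_exp (x := (m : ℝ) + 1) (by positivity) m
    rw [div_le_iff₀ hfac] at a
    refine a.trans (mul_le_mul_of_nonneg_right ?_ hfac.le)
    rw [show ((m : ℝ) + 1) = ((m + 1 : ℕ) : ℝ) * 1 by push_cast; ring, Real.exp_nat_mul]
    exact pow_le_pow_left₀ (Real.exp_pos _).le (Real.exp_one_lt_three).le _
  have e4 : 1 / (3 * 12 ^ m) * (2 ^ m / (m.factorial * h ^ m)) =
      ((m : ℝ) + 1) ^ m / (3 ^ (m + 1) * m.factorial) := by
    rw [hh, one_div_pow, mul_pow, show (12 : ℝ) = 3 * 2 * 2 by norm_num, mul_pow, mul_pow,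
      pow_succ]
    field_simp
  rw [e4, lt_div_iff₀ (by positivity)] at hsum
  linarith

lemma mahler_le_eval (P : ℂ[X]) {τ : ℝ} (h1 : 1 ≤ τ) (h2 : τ ≤ 2) {t : ℂ} (ht : ‖t‖ = τ) :
    P.mahlerMeasure * ((P.roots.map fun x => min ‖x‖ 4).map fun x => |τ - x|).prod ≤
      6 ^ P.natDegree * ‖P.eval t‖ := by
  have hs := IsAlgClosed.splits P
  rw [mahlerMeasure_eq_leadingCoeff_mul_prod_roots, hs.natDegree_eq_card_roots, Multiset.map_map,
    mul_assoc, ← Multiset.prod_map_mul]
  have e : ‖P.eval t‖ = ‖P.leadingCoeff‖ * (P.roots.map fun x => ‖t - x‖).prod := by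
    conv_lhs => rw [hs.eq_prod_roots]
    rw [eval_mul, eval_C, norm_mul, eval_multiset_prod, Multiset.map_map]
    congr 1
    have := map_multiset_prod (normHom (α := ℂ)) (P.roots.map (eval t ∘ fun x => X - C x))
    simp only [Multiset.map_map] at this
    exact this.trans (by simp)
  have e6 : (6 : ℝ) ^ P.roots.card * (P.roots.map fun x => ‖t - x‖).prod =
      (P.roots.map fun x => 6 * ‖t - x‖).prod := by
    rw [Multiset.prod_map_mul]; simp
  rw [e, mul_left_comm, e6]
  refine mul_le_mul_of_nonneg_left ?_ (norm_nonneg _)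
  refine Multiset.prod_map_le_prod_map₀ _ _ (fun x _ => by simp only [Function.comp]; positivity)
    fun x _ => ?_
  simp only [Function.comp]
  have a1 : |τ - ‖x‖| ≤ ‖t - x‖ := by rw [← ht]; exact abs_norm_sub_norm_le t x
  have a0 := norm_nonneg x
  rcases le_total ‖x‖ 4 with h4 | h4
  · rw [min_eq_left h4]
    have : max 1 ‖x‖ ≤ 4 := max_le (by norm_num) h4
    have a2 := abs_nonneg (τ - ‖x‖)
    nlinarith
  · rw [min_eq_right h4, max_eq_right (by linarith), abs_of_nonpos (by linarith)]
    rw [abs_of_nonpos (by linarith)] at a1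
    nlinarith

open Classical in
lemma contour_sum (s : Multiset ℂ) {τ : ℝ} (hτ : 0 < τ) (hs : ∀ z ∈ s, ‖z‖ ≠ τ) :
    CircleIntegrable (fun t => (s.map fun z => 1 / (t - z)).sum) 0 τ ∧
    (∮ t in C(0, τ), (s.map fun z => 1 / (t - z)).sum) =
      2 * Real.pi * Complex.I * ((s.filter fun z => ‖z‖ < τ).card : ℕ) := by
  induction s using Multiset.induction_on with
  | empty => simp [circleIntegral]
  | cons z s ih =>
    obtain ⟨i1, i2⟩ := ih fun i hi => hs i (Multiset.mem_cons_of_mem hi)
    have hz := hs z (Multiset.mem_cons_self _ _)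
    have j1 : CircleIntegrable (fun t => (t - z)⁻¹) 0 τ := by
      rw [circleIntegrable_sub_inv_iff]
      right
      rw [abs_of_pos hτ, mem_sphere_zero_iff_norm]; exact hz
    simp only [Multiset.map_cons, Multiset.sum_cons, one_div] at i1 i2 ⊢
    refine ⟨j1.add i1, ?_⟩
    rw [circleIntegral.integral_add j1 i1, i2]
    by_cases hlt : ‖z‖ < τ
    · rw [circleIntegral.integral_sub_inv_of_mem_ball (mem_ball_zero_iff.2 hlt),
        Multiset.filter_cons_of_pos (p := fun z => ‖z‖ < τ) _ hlt, Multiset.card_cons]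
      push_cast; ring
    · rw [Multiset.filter_cons_of_neg (p := fun z => ‖z‖ < τ) _ hlt]
      have hgt : τ < ‖z‖ := lt_of_le_of_ne (not_lt.1 hlt) (Ne.symm hz)
      have : (∮ t in C(0, τ), (t - z)⁻¹) = 0 := by
        refine DiffContOnCl.circleIntegral_eq_zero hτ.le (DifferentiableOn.diffContOnCl ?_)
        refine DifferentiableOn.inv (by fun_prop) fun t ht h0 => ?_
        rw [closure_ball _ hτ.ne', mem_closedBall_zero_iff] at ht
        rw [sub_eq_zero] at h0
        rw [h0] at ht
        linarith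
      rw [this, zero_add]

open Classical in
/-- Rouché-type comparison of the numbers of roots in a disc. -/
lemma rouche (T F : ℂ[X]) {τ : ℝ} (hτ : 0 < τ) (hτ2 : τ ≤ 2)
    (hT : ∀ t, ‖t‖ = τ → T.eval t ≠ 0) (hF : ∀ t, ‖t‖ = τ → F.eval t ≠ 0)
    (hT0 : T ≠ 0) (hF0 : F ≠ 0)
    (h : ∀ t, ‖t‖ = τ → ‖(derivative T).eval t / T.eval t - (derivative F).eval t / F.eval t‖ ≤
      1 / 4) :
    (F.roots.filter fun z => ‖z‖ < τ).card ≤ T.natDegree := by
  by_contra hc
  push Not at hc
  obtain ⟨a1, a2⟩ := contour_sum T.roots hτ fun z hz h0 => hT z h0 ((mem_roots hT0).1 hz)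
  obtain ⟨b1, b2⟩ := contour_sum F.roots hτ fun z hz h0 => hF z h0 ((mem_roots hF0).1 hz)
  have c := circleIntegral.integral_sub a1 b1
  rw [a2, b2] at c
  have d := circleIntegral.norm_integral_le_of_norm_le_const (c := 0) (C := 1 / 4) hτ.le
    (f := fun t => (T.roots.map fun z => 1 / (t - z)).sum - (F.roots.map fun z => 1 / (t - z)).sum)
    (fun t ht => by
      rw [mem_sphere_zero_iff_norm] at ht
      have := h t ht
      rwa [(IsAlgClosed.splits T).eval_derivative_div_eval_of_ne_zero (hT t ht),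
        (IsAlgClosed.splits F).eval_derivative_div_eval_of_ne_zero (hF t ht)] at this)
  rw [c, ← mul_sub] at d
  have e1 : (T.roots.filter fun z => ‖z‖ < τ).card ≤ T.natDegree :=
    (Multiset.card_le_card (Multiset.filter_le _ _)).trans (card_roots' T)
  set u := (T.roots.filter fun z => ‖z‖ < τ).card
  set w := (F.roots.filter fun z => ‖z‖ < τ).card
  have e2 : (u : ℝ) + 1 ≤ w := by exact_mod_cast (by omega : u + 1 ≤ w)
  have e3 : ‖(u : ℂ) - w‖ = w - u := by
    rw [show (u : ℂ) - w = ((u - w : ℝ) : ℂ) by push_cast; ring, Complex.norm_real,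
      Real.norm_eq_abs, abs_of_nonpos (by linarith)]
    ring
  rw [norm_mul, e3] at d
  simp only [norm_mul, Complex.norm_I, Complex.norm_real, Real.norm_eq_abs, Complex.norm_ofNat,
    abs_of_pos Real.pi_pos] at d
  have := Real.pi_pos
  nlinarith

end Pool.Agent.H271Z.Gap
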