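import Pool.Agent.H271Z.Gap.Nrm
import Pool.Agent.H271Z.Gap.Rad

/-! Intermediate steps of the gap lemma. -/

namespace Pool.Agent.H271Z.Gap

open Finset Polynomial

lemma natDegree_prod_le {ι : Type*} (s : Multiset ι) (f : ι → ℂ[X])
    (h : ∀ i ∈ s, (f i).natDegree ≤ 1) : (s.map f).prod.natDegree ≤ s.card := by
  induction s using Multiset.induction_on with
  | empty => simp
  | cons a s ih =>
    simp only [Multiset.map_cons, Multiset.prod_cons, Multiset.card_cons]
    have h1 := h a (Multiset.mem_cons_self _ _)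
    have h2 := ih fun i hi => h i (Multiset.mem_cons_of_mem hi)
    exact natDegree_mul_le.trans (by omega)

lemma deg_in (b : ℂ) : (1 + C b * X : ℂ[X]).natDegree ≤ 1 := by compute_degree

lemma deg_out (a : ℂ) : (C a + X : ℂ[X]).natDegree ≤ 1 := by compute_degree

lemma norm_prod_sub (N : Multiset ℂ) (b : ℂ) :
    ‖(N.map fun w => w - b).prod‖ = (N.map fun w => ‖b - w‖).prod := by
  induction N using Multiset.induction_on with
  | empty => simp
  | cons a s ih => simp only [Multiset.map_cons, Multiset.prod_cons, norm_mul, ih, norm_sub_rev]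

lemma one_le_mahler_out (s : Multiset ℂ) : 1 ≤ (s.map fun a => C a + X).prod.mahlerMeasure := by
  have hm : (s.map fun a => (C a + X : ℂ[X])).prod.Monic :=
    monic_multiset_prod_of_monic _ _ fun a _ => by rw [add_comm]; exact monic_X_add_C a
  have := leadingCoeff_le_mahlerMeasure (s.map fun a => (C a + X : ℂ[X])).prod
  rwa [hm.leadingCoeff, norm_one] at this

lemma one_le_mahler_in (s : Multiset ℂ) :
    1 ≤ (s.map fun b => 1 + C b * X).prod.mahlerMeasure := by
  have h := norm_coeff_le_choose_mul_mahlerMeasure 0 (s.map fun b => (1 + C b * X : ℂ[X])).prod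
  have e : (s.map fun b => (1 + C b * X : ℂ[X])).prod.coeff 0 = 1 := by
    rw [coeff_zero_eq_eval_zero, eval_multiset_prod, Multiset.map_map]
    simp
  simpa [e] using h

lemma nrm_WI (K : ℕ) (N : Multiset ℂ) (hN : ∀ w ∈ N, ‖w‖ ≤ 1) :
    nrm 2 K (N.map fun b => 1 + C b * X).prod ≤ 3 ^ N.card :=
  nrm_prod_const (by norm_num) K N _ 3 fun w hw =>
    (nrm_in (by norm_num) K (hN w hw)).trans (by norm_num)

lemma nrm_WO (K : ℕ) (N : Multiset ℂ) (hN : ∀ w ∈ N, ‖w‖ ≤ 1) :
    nrm 2 K (N.map fun a => C a + X).prod ≤ 3 ^ N.card :=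
  nrm_prod_const (by norm_num) K N _ 3 fun w hw =>
    (nrm_out (by norm_num) K w).trans (by linarith [hN w hw])

lemma factor_in (K : ℕ) (NI NO : Multiset ℂ) (hI : ∀ w ∈ NI, ‖w‖ ≤ 1) (hO : ∀ w ∈ NO, ‖w‖ ≤ 1)
    (hK : NI.card + NO.card < K) {ε : ℝ} (b : ℂ) (hb : ‖b‖ ≤ 1)
    (hε : (NI.map fun w => ‖b - w‖).prod ≤ ε) :
    ∃ G R : ℂ[X], (NI.map fun b => 1 + C b * X).prod * (NO.map fun a => C a + X).prod *
      derivative (1 + C b * X) = (1 + C b * X) * G + R ∧ G.natDegree ≤ NI.card + NO.card ∧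
      nrm 2 K G ≤ 4 ^ (NI.card + NO.card) ∧ R.natDegree < K ∧
      nrm 2 K R ≤ ε * 3 ^ (NI.card + NO.card) := by
  have e : ∀ w : ℂ, (1 + C b * X + C (w - b) * X : ℂ[X]) = 1 + C w * X := fun w => by
    rw [C_sub]; ring
  obtain ⟨G, hG, hd, hn, -⟩ := div_lemma K (1 + C b * X) X b (nrm_X (by norm_num) K)
    natDegree_X_le NI fun w hw => ⟨(norm_sub_le _ _).trans (by linarith [hI w hw]), by
      rw [e]; exact (nrm_in (by norm_num) K (hI w hw)).trans (by norm_num), by
      rw [e]; exact deg_in w⟩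
  simp only [e] at hG
  have dO := natDegree_prod_le NO (fun a => C a + X) fun a _ => deg_out a
  have nO := nrm_WO K NO hO
  set WO := (NO.map fun a => (C a + X : ℂ[X])).prod
  set c := (NI.map fun w => w - b).prod with hc
  have hc' : ‖c‖ ≤ ε := by rw [hc, norm_prod_sub]; exact hε
  have hε0 : 0 ≤ ε := (norm_nonneg _).trans hc'
  refine ⟨C b * G * WO, C b * (C c * X ^ NI.card) * WO, ?_, ?_, ?_, ?_, ?_⟩
  · rw [hG]; simp only [derivative_add, derivative_one, derivative_mul, derivative_C,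
      derivative_X]; ring
  · exact natDegree_mul_le.trans (add_le_add ((natDegree_C_mul_le _ _).trans hd) dO)
  · refine (nrm_mul_le (by norm_num) (nrm_mul_le (by norm_num)
      ((nrm_C (by norm_num) K b).trans hb) hn) nO).trans ?_
    rw [one_mul, pow_add]
    gcongr; norm_num
  · refine lt_of_le_of_lt (natDegree_mul_le.trans (add_le_add ((natDegree_C_mul_le _ _).trans
      ((natDegree_C_mul_le _ _).trans (natDegree_X_pow_le _))) dO)) hK
  · refine (nrm_mul_le (by norm_num) (nrm_mul_le (by norm_num)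
      ((nrm_C (by norm_num) K b).trans hb) (nrm_mul_le (by norm_num)
        ((nrm_C (by norm_num) K c).trans hc') (nrm_pow (by norm_num) K
          (nrm_X (by norm_num) K) _))) nO).trans ?_
    rw [one_mul, pow_add, mul_assoc]
    gcongr; norm_num

lemma factor_out (K : ℕ) (NI NO : Multiset ℂ) (hI : ∀ w ∈ NI, ‖w‖ ≤ 1) (hO : ∀ w ∈ NO, ‖w‖ ≤ 1)
    (hK : NI.card + NO.card < K) {ε : ℝ} (a : ℂ) (ha : ‖a‖ ≤ 1)
    (hε : (NO.map fun w => ‖a - w‖).prod ≤ ε) :
    ∃ G R : ℂ[X], (NI.map fun b => 1 + C b * X).prod * (NO.map fun a => C a + X).prod *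
      derivative (C a + X) = (C a + X) * G + R ∧ G.natDegree ≤ NI.card + NO.card ∧
      nrm 2 K G ≤ 4 ^ (NI.card + NO.card) ∧ R.natDegree < K ∧
      nrm 2 K R ≤ ε * 3 ^ (NI.card + NO.card) := by
  have e : ∀ w : ℂ, (C a + X + C (w - a) * 1 : ℂ[X]) = C w + X := fun w => by
    rw [C_sub]; ring
  obtain ⟨G, hG, hd, hn, -⟩ := div_lemma K (C a + X) 1 a
    ((nrm_one (by norm_num) K).trans (by norm_num))
    (by simp) NO fun w hw => ⟨(norm_sub_le _ _).trans (by linarith [hO w hw]), by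
      rw [e]; exact (nrm_out (by norm_num) K w).trans (by linarith [hO w hw]), by
      rw [e]; exact deg_out w⟩
  simp only [e] at hG
  have dI := natDegree_prod_le NI (fun b => 1 + C b * X) fun a _ => deg_in a
  have nI := nrm_WI K NI hI
  set WI := (NI.map fun b => (1 + C b * X : ℂ[X])).prod
  set c := (NO.map fun w => w - a).prod with hc
  have hc' : ‖c‖ ≤ ε := by rw [hc, norm_prod_sub]; exact hε
  have hε0 : 0 ≤ ε := (norm_nonneg _).trans hc'
  refine ⟨WI * G, C c * WI, ?_, ?_, ?_, ?_, ?_⟩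
  · rw [hG]; simp only [derivative_add, derivative_C, derivative_X]; ring
  · exact natDegree_mul_le.trans (add_le_add dI hd)
  · refine (nrm_mul_le (by norm_num) nI hn).trans ?_
    rw [pow_add]
    gcongr; norm_num
  · exact lt_of_le_of_lt ((natDegree_C_mul_le _ _).trans dI) (by omega)
  · refine (nrm_mul_le (by norm_num) ((nrm_C (by norm_num) K c).trans hc') nI).trans ?_
    gcongr
    · norm_num
    · omega

lemma partB (In Out : Multiset ℂ) (q : ℂ[X]) (n k : ℕ) {θ : ℝ} (hIn : ∀ b ∈ In, ‖b‖ ≤ 1)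
    (hn : In.card ≤ n) (h0 : 0 < θ) (h1 : θ ≤ 1 / 2) (hd : Out.card + q.natDegree ≤ k) :
    ∃ j, j ≤ k ∧ q.mahlerMeasure ≤ ((n : ℝ) + 1) * 2 ^ k / (θ ^ k * (1 - θ) ^ n) *
      ‖((In.map fun b => 1 + C b * X).prod * (Out.map fun a => C a + X).prod * q).coeff j‖ := by
  set F := (In.map fun b => (1 + C b * X : ℂ[X])).prod * (Out.map fun a => C a + X).prod * q
    with hF
  obtain ⟨j, hj, hmax⟩ := exists_max_image (range (k + 1)) (fun j => ‖F.coeff j‖) (by simp)
  refine ⟨j, Nat.lt_succ_iff.1 (mem_range.1 hj), ?_⟩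
  have dO := natDegree_prod_le Out (fun a => C a + X) fun a _ => deg_out a
  have mO := one_le_mahler_out Out
  set QO := (Out.map fun a => (C a + X : ℂ[X])).prod
  have a1 : q.mahlerMeasure ≤ (QO * q).mahlerMeasure := by
    rw [mahlerMeasure_mul]
    exact le_mul_of_one_le_left (mahlerMeasure_nonneg q) mO
  have a2 : (QO * q).mahlerMeasure ≤ nrm 1 (k + 1) (QO * q) :=
    mahler_le_nrm (natDegree_mul_le.trans_lt (by omega))
  have a3 := nrm_scale h0 (show θ ≤ 1 by linarith) k (QO * q)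
  have a4 := nrm_le_in h0.le (by linarith) (k + 1) In hIn (QO * q)
  rw [← mul_assoc, ← hF] at a4
  have a5 : (1 - θ) ^ n ≤ (1 - θ) ^ In.card :=
    pow_le_pow_of_le_one (by linarith) (by linarith) hn
  have a6 : nrm θ (k + 1) F ≤ 2 ^ k * ‖F.coeff j‖ := by
    calc nrm θ (k + 1) F ≤ ∑ _i ∈ range (k + 1), ‖F.coeff j‖ := by
          refine sum_le_sum fun i hi => ?_
          exact (mul_le_of_le_one_right (norm_nonneg _)
            (pow_le_one₀ h0.le (by linarith))).trans (hmax i hi)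
      _ = (k + 1 : ℕ) * ‖F.coeff j‖ := by simp
      _ ≤ _ := by
          refine mul_le_mul_of_nonneg_right ?_ (norm_nonneg _)
          exact_mod_cast Nat.lt_two_pow_self
  have p1 : 0 < θ ^ k := by positivity
  have p2 : 0 < (1 - θ) ^ n := pow_pos (by linarith) n
  have p3 := nrm_nonneg h0.le (k + 1) (QO * q)
  rw [div_mul_eq_mul_div, le_div_iff₀ (by positivity)]
  rw [one_div_pow, one_div_mul_eq_div, le_div_iff₀ p1] at a3
  have b1 : q.mahlerMeasure * θ ^ k ≤ nrm θ (k + 1) (QO * q) :=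
    (mul_le_mul_of_nonneg_right (a1.trans a2) p1.le).trans a3
  have b2 : (1 - θ) ^ n * nrm θ (k + 1) (QO * q) ≤ 2 ^ k * ‖F.coeff j‖ :=
    (mul_le_mul_of_nonneg_right a5 p3).trans (a4.trans a6)
  have b3 : 0 ≤ (n : ℝ) * (2 ^ k * ‖F.coeff j‖) := by positivity
  have b4 := mul_le_mul_of_nonneg_left b1 p2.le
  nlinarith

open Classical in
lemma count_roots (In Out : Multiset ℂ) (q : ℂ[X]) (hOut : ∀ a ∈ Out, ‖a‖ ≤ 1) {τ : ℝ}
    (hτ : 1 < τ)
    (hF : (In.map fun b => 1 + C b * X).prod * (Out.map fun a => C a + X).prod * q ≠ 0) :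
    Out.card + (In.filter fun b => ‖b‖ = 1).card ≤
      (((In.map fun b => 1 + C b * X).prod * (Out.map fun a => C a + X).prod * q).roots.filter
        fun z => ‖z‖ < τ).card := by
  set s0 : Multiset ℂ := (In.filter fun b => ‖b‖ = 1).map (fun b => -b⁻¹) + Out.map fun a => -a
    with hs0
  have h1 : s0 ≤ ((In.map fun b => 1 + C b * X).prod * (Out.map fun a => C a + X).prod *
      q).roots := by
    rw [← Multiset.prod_X_sub_C_dvd_iff_le_roots hF, hs0, Multiset.map_add, Multiset.prod_add,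
      Multiset.map_map, Multiset.map_map]
    refine Dvd.dvd.mul_right (mul_dvd_mul ?_ ?_) q
    · refine dvd_trans ?_ (Multiset.prod_dvd_prod_of_le
        (Multiset.map_le_map (Multiset.filter_le (fun b => ‖b‖ = 1) In)))
      refine Multiset.prod_dvd_prod_of_dvd _ _ fun b hb => ?_
      have hb0 : b ≠ 0 := by
        intro h; have := (Multiset.mem_filter.1 hb).2; rw [h] at this; simp at this
      refine ⟨C b, ?_⟩
      simp only [Function.comp, map_neg, sub_neg_eq_add, add_mul, ← C_mul, inv_mul_cancel₀ hb0,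
        C_1]
      ring
    · refine dvd_of_eq (congrArg _ (Multiset.map_congr rfl fun a _ => ?_))
      simp only [Function.comp, map_neg, sub_neg_eq_add, add_comm]
  have h2 : ∀ z ∈ s0, ‖z‖ < τ := by
    intro z hz
    rcases Multiset.mem_add.1 hz with h | h
    · obtain ⟨b, hb, rfl⟩ := Multiset.mem_map.1 h
      rw [norm_neg, norm_inv, (Multiset.mem_filter.1 hb).2]; simpa using hτ
    · obtain ⟨a, ha, rfl⟩ := Multiset.mem_map.1 h
      rw [norm_neg]; exact (hOut a ha).trans_lt hτ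
  have h3 := Multiset.card_le_card (Multiset.le_filter.2 ⟨h1, h2⟩)
  rw [hs0, Multiset.card_add, Multiset.card_map, Multiset.card_map] at h3
  omega

lemma eval_in_lower {b t : ℂ} {τ δ : ℝ} (ht : ‖t‖ = τ) (hτ : τ ≤ 2) (hδ1 : δ ≤ 1)
    (h : δ ≤ |τ - 1 / ‖b‖|) : δ / 4 ≤ ‖(1 + C b * X : ℂ[X]).eval t‖ := by
  have e : (1 + C b * X : ℂ[X]).eval t = 1 - (-b * t) := by simp
  have a1 := abs_norm_sub_norm_le (1 : ℂ) (-b * t)
  rw [norm_one, norm_mul, norm_neg, ht] at a1
  rw [e]
  have hτ0 : 0 ≤ τ := ht ▸ norm_nonneg t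
  rcases le_total ‖b‖ (1 / 4) with h4 | h4
  · have : ‖b‖ * τ ≤ 1 / 4 * 2 := mul_le_mul h4 hτ hτ0 (by norm_num)
    have := le_abs_self (1 - ‖b‖ * τ)
    linarith
  · have hb : 0 < ‖b‖ := by linarith
    have e2 : |1 - ‖b‖ * τ| = ‖b‖ * |τ - 1 / ‖b‖| := by
      rw [abs_sub_comm, ← abs_of_pos hb, ← abs_mul, abs_of_pos hb]
      congr 1; field_simp
    rw [e2] at a1
    have := abs_nonneg (τ - 1 / ‖b‖)
    nlinarith

lemma eval_out_lower {a t : ℂ} {τ : ℝ} (ht : ‖t‖ = τ) (ha : ‖a‖ ≤ 1) :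
    τ - 1 ≤ ‖(C a + X : ℂ[X]).eval t‖ := by
  have e : (C a + X : ℂ[X]).eval t = t - (-a) := by simp [add_comm]
  have a1 := norm_sub_norm_le t (-a)
  rw [norm_neg, ht] at a1
  rw [e]; linarith

end Pool.Agent.H271Z.Gap
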